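import Pool.Agent.Helper77.SD.St

/-!
# Project SD (MP_93a5ff_an): module APX (helper80)
-/

set_option autoImplicit false

namespace Pool.Agent.Helper80.SD

open Pool.Agent.Helper77.SD MeasureTheory Metric Set
open scoped Gradient RealInnerProductSpace ENNReal Convolution

/-- The divergence is bounded by the derivative. -/
theorem abs_dv_le {d : ℕ} (W : E d → E d) (x : E d) : |dv W x| ≤ d * ‖fderiv ℝ W x‖ := by
  unfold dv
  refine (Finset.abs_sum_le_sum_abs _ _).trans ?_
  refine (Finset.sum_le_card_nsmul Finset.univ _ ‖fderiv ℝ W x‖ ?_).trans ?_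
  · intro i _
    have h1 : |(fderiv ℝ W x (EuclideanSpace.single i (1 : ℝ))) i| ≤
        ‖fderiv ℝ W x (EuclideanSpace.single i (1 : ℝ))‖ := by
      rw [← Real.norm_eq_abs]
      exact PiLp.norm_apply_le _ i
    refine h1.trans ?_
    refine ((fderiv ℝ W x).le_opNorm _).trans ?_
    rw [EuclideanSpace.norm_single, norm_one, mul_one]
  · simp

theorem hAPX : StAPX := by
  intro d Z Q hZ hQ ε hε
  obtain ⟨r, hr, hZr⟩ := Metric.uniformContinuous_iff.1 hZ ε hε
  let φ : ContDiffBump (0 : E d) := ⟨r / 2, r, by positivity, by linarith⟩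
  have hZc : Continuous Z := hZ.continuous
  have hloc : LocallyIntegrable Z volume := hZc.locallyIntegrable
  have hρc : HasCompactSupport (φ.normed (volume : Measure (E d))) := φ.hasCompactSupport_normed
  have hρs : ContDiff ℝ 1 (φ.normed (volume : Measure (E d))) := φ.contDiff_normed
  let L := ContinuousLinearMap.lsmul ℝ ℝ (E := E d)
  let W : E d → E d := φ.normed volume ⋆[L, volume] Z
  have hW1 : ContDiff ℝ 1 W := by
    have := hρc.contDiff_convolution_left (n := 1) L (by exact_mod_cast hρs) hloc
    exact_mod_cast this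
  have hder : ∀ x, fderiv ℝ W x = (fderiv ℝ (φ.normed (volume : Measure (E d))) ⋆[L.precompL (E d), volume] Z) x :=
    fun x => (hρc.hasFDerivAt_convolution_left L hρs hloc x).fderiv
  have hdint : Integrable (fderiv ℝ (φ.normed (volume : Measure (E d)))) volume :=
    (hρs.continuous_fderiv (by norm_num)).integrable_of_hasCompactSupport (hρc.fderiv (𝕜 := ℝ))
  have hQ0 : 0 ≤ Q := (norm_nonneg _).trans (hQ 0)
  have hbd : ∀ x, ‖fderiv ℝ W x‖ ≤
      ∫ t, ‖L.precompL (E d)‖ * ‖fderiv ℝ (φ.normed (volume : Measure (E d))) t‖ * Q := by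
    intro x
    rw [hder x]
    unfold convolution
    refine norm_integral_le_of_norm_le ((hdint.norm.const_mul _).mul_const _) ?_
    refine Filter.Eventually.of_forall fun t => ?_
    refine (ContinuousLinearMap.le_opNorm₂ _ _ _).trans ?_
    exact mul_le_mul_of_nonneg_left (hQ _) (by positivity)
  refine ⟨W, d * ∫ t, ‖L.precompL (E d)‖ * ‖fderiv ℝ (φ.normed (volume : Measure (E d))) t‖ * Q,
    hW1, fun x => ?_, fun x => ?_⟩
  · have h1 : dist (W x) (Z x) ≤ ε := by
      apply φ.dist_normed_convolution_le hZc.aestronglyMeasurable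
      intro y hy
      exact (hZr (mem_ball.1 hy)).le
    rw [dist_comm, dist_eq_norm] at h1
    exact h1
  · exact (abs_dv_le W x).trans (mul_le_mul_of_nonneg_left (hbd x) (Nat.cast_nonneg _))

end Pool.Agent.Helper80.SD
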