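import Pool.Agent.Helper77.SD.St2

/-!
# Project SD (MP_93a5ff_an): module CV, change of variables (helper80)
-/

set_option autoImplicit false

namespace Pool.Agent.Helper80.SD

open Pool.Agent.Helper77.SD MeasureTheory Metric Set
open scoped Gradient RealInnerProductSpace ENNReal

namespace CV

variable {d : ℕ} {Φ Ψ : E d → E d}

theorem chain (hΦ : ContDiff ℝ 1 Φ) (hΨ : ContDiff ℝ 1 Ψ) (hl : ∀ x, Ψ (Φ x) = x) (x : E d) :
    (fderiv ℝ Ψ (Φ x)) ∘L (fderiv ℝ Φ x) = ContinuousLinearMap.id ℝ (E d) := by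
  have h1 : HasFDerivAt Φ (fderiv ℝ Φ x) x := (hΦ.differentiable (by norm_num) x).hasFDerivAt
  have h2 : HasFDerivAt Ψ (fderiv ℝ Ψ (Φ x)) (Φ x) :=
    (hΨ.differentiable (by norm_num) (Φ x)).hasFDerivAt
  have h3 := h2.comp x h1
  have h4 : Ψ ∘ Φ = id := funext hl
  rw [h4] at h3
  exact h3.unique (hasFDerivAt_id x)

theorem qmp (hΦ : ContDiff ℝ 1 Φ) (hΨ : ContDiff ℝ 1 Ψ) (hl : ∀ x, Ψ (Φ x) = x)
    (hr : ∀ y, Φ (Ψ y) = y) : Measure.QuasiMeasurePreserving Φ volume volume := by
  refine ⟨hΦ.continuous.measurable, ?_⟩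
  refine Measure.AbsolutelyContinuous.mk fun s hs h0 => ?_
  rw [Measure.map_apply hΦ.continuous.measurable hs]
  have e : Φ ⁻¹' s = Ψ '' s := by
    ext x
    simp only [mem_preimage, mem_image]
    constructor
    · intro h
      exact ⟨Φ x, h, hl x⟩
    · rintro ⟨y, hy, rfl⟩
      rw [hr y]; exact hy
  rw [e]
  exact addHaar_image_eq_zero_of_differentiableOn_of_addHaar_eq_zero volume
    (hΨ.differentiable (by norm_num)).differentiableOn h0

theorem image_univ' (hr : ∀ y, Φ (Ψ y) = y) : Φ '' univ = univ := by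
  rw [image_univ]
  exact Function.Surjective.range_eq fun y => ⟨Ψ y, hr y⟩

theorem int (hΦ : ContDiff ℝ 1 Φ) (hl : ∀ x, Ψ (Φ x) = x)
    (hr : ∀ y, Φ (Ψ y) = y) (g : E d → ℝ) :
    ∫ y, g y = ∫ x, |(fderiv ℝ Φ x).det| * g (Φ x) := by
  have h := integral_image_eq_integral_abs_det_fderiv_smul (volume : Measure (E d)) (s := univ)
    (f := Φ) (f' := fderiv ℝ Φ) MeasurableSet.univ
    (fun x _ => (hΦ.differentiable (by norm_num) x).hasFDerivAt.hasFDerivWithinAt)
    (Function.LeftInverse.injective hl).injOn g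
  rw [image_univ' hr, Measure.restrict_univ] at h
  simpa using h

theorem integrable_sq_comp {F : Type} [NormedAddCommGroup F] {κ : ℝ}
    (hΨ : ContDiff ℝ 1 Ψ) (hl : ∀ x, Ψ (Φ x) = x)
    (hr : ∀ y, Φ (Ψ y) = y) (hj : ∀ y, |(fderiv ℝ Ψ y).det| ≤ κ) (g : E d → F) (hg : L2 g) :
    Integrable (fun x => ‖g (Φ x)‖ ^ 2) ∧ ∫ x, ‖g (Φ x)‖ ^ 2 ≤ κ * ∫ y, ‖g y‖ ^ 2 := by
  have hs := integrable_sq hg
  have hdet : Continuous fun y => |(fderiv ℝ Ψ y).det| :=
    (ContinuousLinearMap.continuous_det.comp (hΨ.continuous_fderiv (by norm_num))).abs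
  have hint : Integrable (fun y => |(fderiv ℝ Ψ y).det| * ‖g y‖ ^ 2) volume := by
    refine hs.bdd_mul (c := κ) hdet.aestronglyMeasurable (Filter.Eventually.of_forall fun y => ?_)
    rw [Real.norm_eq_abs, abs_abs]
    exact hj y
  have h1 := integrableOn_image_iff_integrableOn_abs_det_fderiv_smul (volume : Measure (E d))
    (s := univ) (f := Ψ) (f' := fderiv ℝ Ψ) MeasurableSet.univ
    (fun x _ => (hΨ.differentiable (by norm_num) x).hasFDerivAt.hasFDerivWithinAt)
    (Function.LeftInverse.injective hr).injOn (fun x => ‖g (Φ x)‖ ^ 2)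
  rw [image_univ' hl, integrableOn_univ, integrableOn_univ] at h1
  have h2 := int (Φ := Ψ) (Ψ := Φ) hΨ hr hl (fun x => ‖g (Φ x)‖ ^ 2)
  simp only [hr, smul_eq_mul] at h1 h2
  refine ⟨h1.2 hint, ?_⟩
  rw [h2, ← integral_const_mul]
  exact integral_mono hint (hs.const_mul _) fun y =>
    mul_le_mul_of_nonneg_right (hj y) (sq_nonneg _)

end CV

open CV in
/-- change of variables for integrals and null sets -/
theorem hCV : StCV := by
  intro d Φ Ψ l l' κ h
  have hq := qmp h.smooth h.smooth' h.left h.right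
  refine ⟨int h.smooth h.left h.right, chain h.smooth h.smooth' h.left, fun x => ?_, hq,
    qmp h.smooth' h.smooth h.right h.left, ?_, ?_, ?_, ?_⟩
  · have h1 := chain h.smooth' h.smooth h.right (Φ x)
    rw [h.left] at h1
    exact h1
  · intro g hg
    exact l2_of_sq (hg.1.comp_quasiMeasurePreserving hq)
      (integrable_sq_comp h.smooth' h.left h.right h.jac' g hg).1
  · intro g hg
    exact l2_of_sq (hg.1.comp_quasiMeasurePreserving hq)
      (integrable_sq_comp h.smooth' h.left h.right h.jac' g hg).1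
  · intro g hg
    exact (integrable_sq_comp h.smooth' h.left h.right h.jac' g hg).2
  · intro g hg
    exact (integrable_sq_comp h.smooth' h.left h.right h.jac' g hg).2

end Pool.Agent.Helper80.SD
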